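import Pool.Agent.Q296.Md.Loc

set_option autoImplicit false

namespace Pool.Agent.Q296.Md

open Finset Filter Topology Pool.Agent.Q294.Md

noncomputable section

lemma cauchy_aux {u v : ℕ → ℝ} (hu : ∀ j, 0 ≤ u j) (hv : ∀ j, 0 ≤ v j) {A B : ℝ}
    (h1 : HasSum u A) (h2 : HasSum v B) :
    HasSum (fun n : ℕ => ∑ p ∈ Finset.HasAntidiagonal.antidiagonal n, u p.1 * v p.2) (A * B) := by
  have h3 : Summable fun x : ℕ × ℕ => u x.1 * v x.2 :=
    h1.summable.mul_of_nonneg h2.summable hu hv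
  have h4 := h1.summable.tsum_mul_tsum_eq_tsum_sum_antidiagonal h2.summable h3
  have h5 : Summable fun n : ℕ => ∑ p ∈ Finset.HasAntidiagonal.antidiagonal n, u p.1 * v p.2 :=
    summable_sum_mul_antidiagonal_of_summable_mul h3
  rw [h1.tsum_eq, h2.tsum_eq] at h4
  rw [h4]
  exact h5.hasSum

lemma hasSum_mul_q {t : ℝ} (ht : 0 ≤ t) (N : ℕ) :
    HasSum (fun j : ℕ => (j : ℝ) * q t (N + 1) j) ((N + 1) * t * (mu1 * (1 + t * y0) ^ N)) := by
  have h0 : ∀ j : ℕ, 0 ≤ (j : ℝ) * b j := fun j => mul_nonneg (Nat.cast_nonneg _) (b_nonneg _)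
  have h1 := cauchy_aux h0 (q_nonneg ht N) mul_b_summable.hasSum (hasSum_q ht N)
  have h2 := h1.mul_left ((N + 1) * t)
  rw [funext (mul_q_succ t N)]
  exact h2

lemma lower_sum {t : ℝ} (ht : 0 ≤ t) (N n : ℕ) (hn : 1 ≤ n) :
    (1 + t * y0) ^ (N + 1) ≤ ∑ j ∈ range (n + 1), q t (N + 1) j +
      (n : ℝ)⁻¹ * ((N + 1) * t * (mu1 * (1 + t * y0) ^ N)) := by
  have hn0 : (0 : ℝ) < n := by exact_mod_cast hn
  have h1 : HasSum (fun j => if j ∈ range (n + 1) then q t (N + 1) j else 0)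
      (∑ j ∈ range (n + 1), q t (N + 1) j) := by
    have h := hasSum_sum_of_ne_finset_zero (L := SummationFilter.unconditional ℕ)
      (f := fun j => if j ∈ range (n + 1) then q t (N + 1) j else 0)
      (s := range (n + 1)) (fun j hj => if_neg hj)
    rwa [Finset.sum_congr rfl (fun j hj => if_pos hj)] at h
  have h2 := h1.add ((hasSum_mul_q ht N).mul_left (n : ℝ)⁻¹)
  refine hasSum_le (fun j => ?_) (hasSum_q ht (N + 1)) h2
  have h3 := q_nonneg ht (N + 1) j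
  by_cases hj : j ∈ range (n + 1)
  · simp only [if_pos hj]
    have : 0 ≤ (n : ℝ)⁻¹ * (j * q t (N + 1) j) := by positivity
    linarith
  · simp only [if_neg hj, zero_add]
    rw [mem_range, not_lt] at hj
    have h4 : (1 : ℝ) ≤ (n : ℝ)⁻¹ * j := by
      rw [← div_eq_inv_mul, le_div_iff₀ hn0, one_mul]
      exact_mod_cast (Nat.le_of_succ_le hj)
    calc q t (N + 1) j ≤ ((n : ℝ)⁻¹ * j) * q t (N + 1) j := le_mul_of_one_le_left h3 h4
      _ = _ := by ring

lemma hh_tendsto : ∃ c : ℝ, 1 / 2 ≤ c ∧ Tendsto hh atTop (𝓝 c) := by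
  have hbdd : BddBelow (Set.range hh) := ⟨1 / 2, by rintro _ ⟨n, rfl⟩; exact hh_ge n⟩
  refine ⟨⨅ n, hh n, le_ciInf hh_ge, tendsto_atTop_ciInf hh_anti hbdd⟩

lemma hh_half : Tendsto (fun n : ℕ => hh (n / 2) / hh n) atTop (𝓝 1) := by
  obtain ⟨c, hc, hlim⟩ := hh_tendsto
  have hc0 : c ≠ 0 := by linarith
  have h1 : Tendsto (fun n : ℕ => n / 2) atTop atTop :=
    Nat.tendsto_div_const_atTop (by norm_num)
  have h2 := (hlim.comp h1).div hlim hc0
  rw [div_self hc0] at h2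
  exact h2

lemma g_ratio_ge {n j : ℕ} (_hj : j ≤ n) : 1 ≤ g (n - j) / g n := by
  rw [le_div_iff₀ (g_pos n), one_mul]
  exact g_anti (Nat.sub_le _ _)

lemma g_ratio_le_all (n j : ℕ) : g (n - j) / g n ≤ 2 * ((n : ℝ) + 1) ^ 2 * g (n - j) := by
  have h1 := g_ge n
  have h2 := g_pos (n - j)
  rw [div_le_iff₀ (g_pos n)]
  have h3 : 1 ≤ 2 * ((n : ℝ) + 1) ^ 2 * g n := by
    rw [div_le_iff₀ (by positivity)] at h1
    linarith
  calc g (n - j) = g (n - j) * 1 := (mul_one _).symm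
    _ ≤ g (n - j) * (2 * ((n : ℝ) + 1) ^ 2 * g n) := by gcongr
    _ = _ := by ring

lemma g_ratio_le {ε : ℝ} (hε : 0 < ε) (hε2 : ε < 1 / 2) {n j : ℕ} (hj : (j : ℝ) ≤ ε * n) :
    g (n - j) / g n ≤ hh (n / 2) / hh n * ((1 - ε) ^ 2)⁻¹ := by
  have hn0 : (0 : ℝ) ≤ n := Nat.cast_nonneg n
  have hjn : 2 * j ≤ n := by
    have : (2 : ℝ) * j ≤ n := by nlinarith
    exact_mod_cast this
  have hjn' : j ≤ n := by omega
  rw [g_eq, g_eq, Nat.cast_sub hjn']
  have h1 : hh (n - j) ≤ hh (n / 2) := hh_anti (by omega)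
  have h2 := hh_pos n
  have h3 : (0 : ℝ) < (n : ℝ) - j + 1 := by
    have : (j : ℝ) ≤ n := by exact_mod_cast hjn'
    linarith
  have h4 : hh (n - j) / ((n : ℝ) - j + 1) ^ 2 / (hh n / ((n : ℝ) + 1) ^ 2) =
      hh (n - j) / hh n * (((n : ℝ) + 1) / ((n : ℝ) - j + 1)) ^ 2 := by
    field_simp
  rw [h4]
  have h5 : 0 < 1 - ε := by linarith
  have h6 : ((n : ℝ) + 1) / ((n : ℝ) - j + 1) ≤ (1 - ε)⁻¹ := by
    rw [div_le_iff₀ h3, ← div_eq_inv_mul, le_div_iff₀ h5]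
    nlinarith
  rw [← inv_pow]
  have h7 : 0 ≤ hh (n / 2) / hh n := div_nonneg (hh_pos _).le h2.le
  gcongr

theorem lim : S_limit := by
  intro hloc K t ht hK
  have htK : ∀ n : ℕ, 1 ≤ n → t n ≤ |K| * (√(n : ℝ))⁻¹ := by
    intro n hn
    have hsq : 0 < √(n : ℝ) := Real.sqrt_pos.2 (by exact_mod_cast hn)
    rw [← div_eq_mul_inv, le_div_iff₀ hsq, mul_comm]
    exact (hK n).trans (le_abs_self K)
  have hsinv : Tendsto (fun n : ℕ => (√(n : ℝ))⁻¹) atTop (𝓝 0) :=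
    tendsto_inv_atTop_zero.comp (Real.tendsto_sqrt_atTop.comp tendsto_natCast_atTop_atTop)
  have hApos : ∀ n N : ℕ, 0 < (1 + t n * y0) ^ N := by
    intro n N
    have := mul_nonneg (ht n) y0_pos.le
    positivity
  rw [tendsto_order]
  constructor
  · intro a ha
    have h1 : Tendsto (fun n : ℕ => 1 - 3 * (|K| * (√(n : ℝ))⁻¹) * mu1) atTop (𝓝 1) := by
      have := ((hsinv.const_mul |K|).const_mul 3).mul_const mu1
      have := this.const_sub 1
      simpa using this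
    filter_upwards [h1.eventually (lt_mem_nhds ha), eventually_ge_atTop 1] with n hn1 hn
    refine hn1.trans_le ?_
    have hn0 : (0 : ℝ) < n := by exact_mod_cast hn
    have h2 := lower_sum (ht n) (2 * n) n hn
    have h3 : ∑ j ∈ range (n + 1), q (t n) (2 * n + 1) j ≤
        ∑ j ∈ range (n + 1), g (n - j) / g n * q (t n) (2 * n + 1) j := by
      apply Finset.sum_le_sum
      intro j hj
      rw [mem_range] at hj
      exact le_mul_of_one_le_left (q_nonneg (ht n) _ _) (g_ratio_ge (by omega))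
    rw [le_div_iff₀ (hApos n _)]
    have hmu := mu1_nonneg
    have h4 : (n : ℝ)⁻¹ * (((2 * n : ℕ) + 1) * t n * (mu1 * (1 + t n * y0) ^ (2 * n))) ≤
        3 * (|K| * (√(n : ℝ))⁻¹) * mu1 * (1 + t n * y0) ^ (2 * n + 1) := by
      have h5 : (n : ℝ)⁻¹ * ((2 * n : ℕ) + 1) ≤ 3 := by
        rw [← div_eq_inv_mul, div_le_iff₀ hn0]
        have : (1 : ℝ) ≤ n := by exact_mod_cast hn
        push_cast
        linarith
      have h6 : (1 + t n * y0) ^ (2 * n) ≤ (1 + t n * y0) ^ (2 * n + 1) := by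
        rw [pow_succ]
        have := mul_nonneg (ht n) y0_pos.le
        exact le_mul_of_one_le_right (hApos n _).le (by linarith)
      have h7 := htK n hn
      have h8 := hApos n (2 * n)
      have h9 := ht n
      calc (n : ℝ)⁻¹ * (((2 * n : ℕ) + 1) * t n * (mu1 * (1 + t n * y0) ^ (2 * n)))
          = ((n : ℝ)⁻¹ * ((2 * n : ℕ) + 1)) * t n * mu1 * (1 + t n * y0) ^ (2 * n) := by ring
        _ ≤ 3 * (|K| * (√(n : ℝ))⁻¹) * mu1 * (1 + t n * y0) ^ (2 * n + 1) := by gcongr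
    have h5 : (1 - 3 * (|K| * (√(n : ℝ))⁻¹) * mu1) * (1 + t n * y0) ^ (2 * n + 1) =
        (1 + t n * y0) ^ (2 * n + 1) -
          3 * (|K| * (√(n : ℝ))⁻¹) * mu1 * (1 + t n * y0) ^ (2 * n + 1) := by ring
    rw [h5]
    linarith
  · intro a ha
    have ha0 : 0 < a := by linarith
    have hainv : 0 < 1 - a⁻¹ := by
      rw [sub_pos]
      exact inv_lt_one_of_one_lt₀ ha
    set ε : ℝ := min (1 / 4) ((1 - a⁻¹) / 4) with hεd
    have hε : 0 < ε := lt_min (by norm_num) (by positivity)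
    have hε1 : ε ≤ 1 / 4 := min_le_left _ _
    have hε2 : ε ≤ (1 - a⁻¹) / 4 := min_le_right _ _
    have hεa : ((1 - ε) ^ 2)⁻¹ < a := by
      have h1ε : 0 < 1 - ε := by linarith
      rw [inv_lt_comm₀ (by positivity) ha0]
      nlinarith
    obtain ⟨C, hC⟩ := hloc K ε hε 5 le_rfl
    have hC' : 0 ≤ |C| := abs_nonneg _
    have hG0 : 0 ≤ ∑' i, g i := tsum_nonneg fun i => (g_pos i).le
    have h1 : Tendsto (fun n : ℕ => hh (n / 2) / hh n * ((1 - ε) ^ 2)⁻¹ +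
        8 * |C| * (∑' i, g i) * (√(n : ℝ))⁻¹) atTop (𝓝 ((1 - ε) ^ 2)⁻¹) := by
      have := (hh_half.mul_const ((1 - ε) ^ 2)⁻¹).add
        (hsinv.const_mul (8 * |C| * (∑' i, g i)))
      simpa using this
    filter_upwards [h1.eventually (gt_mem_nhds hεa), eventually_ge_atTop 1] with n hn1 hn
    refine lt_of_le_of_lt ?_ hn1
    have hn0 : (0 : ℝ) < n := by exact_mod_cast hn
    have hsq : 0 < √(n : ℝ) := Real.sqrt_pos.2 hn0
    set s : ℝ := (√(n : ℝ))⁻¹ with hs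
    have hs0 : 0 < s := inv_pos.2 hsq
    have hns : (n : ℝ) * s ^ 2 = 1 := by
      rw [hs, inv_pow, Real.sq_sqrt hn0.le]
      field_simp
    set A : ℝ := (1 + t n * y0) ^ (2 * n + 1) with hA
    have hA0 : 0 < A := hApos n _
    rw [div_le_iff₀ hA0]
    have hhp := hh_pos n
    have hhp2 := hh_pos (n / 2)
    have h2 : ∀ j ∈ range (n + 1), g (n - j) / g n * q (t n) (2 * n + 1) j ≤
        hh (n / 2) / hh n * ((1 - ε) ^ 2)⁻¹ * q (t n) (2 * n + 1) j +
          (2 * ((n : ℝ) + 1) ^ 2 * (|C| * A * s ^ 5)) * g (n - j) := by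
      intro j hj
      have hq := q_nonneg (ht n) (2 * n + 1) j
      have hg := g_pos (n - j)
      rcases le_or_gt (j : ℝ) (ε * n) with h3 | h3
      · have h4 := g_ratio_le hε (by linarith) h3
        have h5 := mul_le_mul_of_nonneg_right h4 hq
        have h6 : 0 ≤ (2 * ((n : ℝ) + 1) ^ 2 * (|C| * A * s ^ 5)) * g (n - j) := by positivity
        linarith
      · have h4 := g_ratio_le_all n j
        have h5 := hC n (2 * n + 1) j (t n) hn le_rfl (ht n) (hK n) h3.le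
        have h6 : q (t n) (2 * n + 1) j ≤ |C| * A * s ^ 5 := by
          refine h5.trans ?_
          have := le_abs_self C
          gcongr
        have h7 : g (n - j) / g n * q (t n) (2 * n + 1) j ≤
            2 * ((n : ℝ) + 1) ^ 2 * g (n - j) * (|C| * A * s ^ 5) := by
          gcongr
        have h8 : 0 ≤ hh (n / 2) / hh n * ((1 - ε) ^ 2)⁻¹ * q (t n) (2 * n + 1) j := by
          positivity
        linarith
    refine (Finset.sum_le_sum h2).trans ?_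
    rw [Finset.sum_add_distrib, ← Finset.mul_sum, ← Finset.mul_sum]
    have h3 : ∑ j ∈ range (n + 1), g (n - j) ≤ ∑' i, g i := by
      rw [Finset.sum_flip g]
      exact g_summable.sum_le_tsum _ fun i _ => (g_pos i).le
    have h4 : ∑ j ∈ range (n + 1), q (t n) (2 * n + 1) j ≤ A := sum_q_le (ht n) _ _
    have h5 : 2 * ((n : ℝ) + 1) ^ 2 * (|C| * A * s ^ 5) ≤ 8 * |C| * A * s := by
      have h6 : ((n : ℝ) + 1) ^ 2 ≤ 4 * (n : ℝ) ^ 2 := by
        have : (1 : ℝ) ≤ n := by exact_mod_cast hn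
        nlinarith
      calc 2 * ((n : ℝ) + 1) ^ 2 * (|C| * A * s ^ 5) ≤
          2 * (4 * (n : ℝ) ^ 2) * (|C| * A * s ^ 5) := by gcongr
        _ = 8 * |C| * A * s * ((n : ℝ) * s ^ 2) ^ 2 := by ring
        _ = 8 * |C| * A * s := by rw [hns]; ring
    have hG1 : 0 ≤ ∑ j ∈ range (n + 1), g (n - j) := Finset.sum_nonneg fun j _ => (g_pos _).le
    calc hh (n / 2) / hh n * ((1 - ε) ^ 2)⁻¹ * ∑ j ∈ range (n + 1), q (t n) (2 * n + 1) j +
          2 * ((n : ℝ) + 1) ^ 2 * (|C| * A * s ^ 5) * ∑ j ∈ range (n + 1), g (n - j)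
        ≤ hh (n / 2) / hh n * ((1 - ε) ^ 2)⁻¹ * A + 8 * |C| * A * s * ∑' i, g i := by gcongr
      _ = (hh (n / 2) / hh n * ((1 - ε) ^ 2)⁻¹ + 8 * |C| * (∑' i, g i) * s) * A := by ring

end

end Pool.Agent.Q296.Md
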