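import Pool.Agent.Q294.Md.Base

set_option autoImplicit false

namespace Pool.Agent.Q296.Md

open Finset Filter Topology Pool.Agent.Q294.Md

noncomputable section

/-- the sum of `j b_j` -/
def mu1 : ℝ := ∑' j : ℕ, (j : ℝ) * b j

lemma mu1_nonneg : 0 ≤ mu1 := tsum_nonneg fun j => mul_nonneg (Nat.cast_nonneg j) (b_nonneg j)

lemma sum_fst_le (j : ℕ) :
    ∑ p ∈ Finset.HasAntidiagonal.antidiagonal j, ((p.1 : ℝ) * b p.1) ≤ mu1 := by
  rw [Finset.Nat.sum_antidiagonal_eq_sum_range_succ (fun i _ => (i : ℝ) * b i) j]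
  exact mul_b_summable.sum_le_tsum _ fun i _ => mul_nonneg (Nat.cast_nonneg i) (b_nonneg i)

lemma sum_snd_le {t : ℝ} (ht : 0 ≤ t) (N j : ℕ) :
    ∑ p ∈ Finset.HasAntidiagonal.antidiagonal j, q t N p.2 ≤ (1 + t * y0) ^ N := by
  rw [← Finset.Nat.sum_antidiagonal_swap]
  simp only [Prod.snd_swap]
  rw [Finset.Nat.sum_antidiagonal_eq_sum_range_succ (fun i _ => q t N i) j]
  exact sum_q_le ht N _

theorem loc : S_local := by
  intro K ε hε r
  induction r generalizing ε with
  | zero =>
    intro _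
    refine ⟨1, fun n N j t _ _ ht _ _ => ?_⟩
    rw [pow_zero, mul_one, one_mul]
    have := sum_q_le ht N {j}
    rwa [Finset.sum_singleton] at this
  | succ r ih =>
    intro hr
    obtain ⟨C0, hC0⟩ := ih (ε / 2) (by positivity) (by omega)
    set C' : ℝ := |C0| with hC'
    have hC'0 : 0 ≤ C' := abs_nonneg _
    refine ⟨3 * |K| / ε * (1 / (4 * ε ^ 2) + C' * mu1), fun n N j t hn hN ht hK hj => ?_⟩
    have hn0 : (0 : ℝ) < n := by exact_mod_cast hn
    have hsq : 0 < √(n : ℝ) := Real.sqrt_pos.2 hn0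
    set s : ℝ := (√(n : ℝ))⁻¹ with hs
    have hs0 : 0 < s := inv_pos.2 hsq
    have hs1 : s ≤ 1 := by
      apply inv_le_one_of_one_le₀
      rw [Real.one_le_sqrt]
      exact_mod_cast hn
    have hns : (n : ℝ) * s ^ 2 = 1 := by
      rw [hs, inv_pow, Real.sq_sqrt hn0.le]
      field_simp
    have hmu := mu1_nonneg
    have hj0 : (0 : ℝ) < j := lt_of_lt_of_le (by positivity) hj
    have hty : 0 ≤ t * y0 := mul_nonneg ht y0_pos.le
    rcases N with _ | N
    · rw [q_zero_left, if_neg (by rintro rfl; simp at hj0)]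
      positivity
    set A : ℝ := (1 + t * y0) ^ N with hA
    have hA0 : 0 < A := by positivity
    have hsum : ∑ p ∈ Finset.HasAntidiagonal.antidiagonal j, ((p.1 : ℝ) * b p.1) * q t N p.2 ≤
        1 / (4 * (j : ℝ) ^ 2) * A + C' * A * s ^ r * mu1 := by
      have h1 : ∀ p ∈ Finset.HasAntidiagonal.antidiagonal j, ((p.1 : ℝ) * b p.1) * q t N p.2 ≤
          1 / (4 * (j : ℝ) ^ 2) * q t N p.2 + C' * A * s ^ r * ((p.1 : ℝ) * b p.1) := by
        intro p hp
        rw [Finset.HasAntidiagonal.mem_antidiagonal] at hp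
        have hb0 : 0 ≤ (p.1 : ℝ) * b p.1 := mul_nonneg (Nat.cast_nonneg _) (b_nonneg _)
        have hq0 := q_nonneg ht N p.2
        rcases le_or_gt j (2 * p.1) with h2 | h2
        · have h3 : (p.1 : ℝ) * b p.1 ≤ 1 / (4 * (j : ℝ) ^ 2) := by
            refine (mul_b_le p.1).trans ?_
            have h4 : (j : ℝ) ≤ 2 * p.1 := by exact_mod_cast h2
            apply one_div_le_one_div_of_le (by positivity)
            nlinarith
          have h4 := mul_le_mul_of_nonneg_right h3 hq0
          have h5 : 0 ≤ C' * A * s ^ r * ((p.1 : ℝ) * b p.1) := by positivity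
          linarith
        · have h3 : ε / 2 * n ≤ p.2 := by
            have h4 : (j : ℝ) ≤ 2 * p.2 := by
              have : j ≤ 2 * p.2 := by omega
              exact_mod_cast this
            linarith
          have h4 := hC0 n N p.2 t hn (by omega) ht hK h3
          have h5 : q t N p.2 ≤ C' * A * s ^ r := by
            refine h4.trans ?_
            have := le_abs_self C0
            rw [hA]
            gcongr
          have h6 := mul_le_mul_of_nonneg_left h5 hb0
          have h7 : 0 ≤ 1 / (4 * (j : ℝ) ^ 2) * q t N p.2 := by positivity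
          linarith
      refine (Finset.sum_le_sum h1).trans ?_
      rw [Finset.sum_add_distrib, ← Finset.mul_sum, ← Finset.mul_sum]
      have h2 := sum_fst_le j
      have h3 := sum_snd_le ht N j
      gcongr
    have hmain := mul_q_succ t N j
    have h1 : (j : ℝ) * q t (N + 1) j ≤
        (N + 1) * t * (1 / (4 * (j : ℝ) ^ 2) * A + C' * A * s ^ r * mu1) := by
      rw [hmain]
      gcongr
    have hNn : (N : ℝ) + 1 ≤ 3 * n := by
      have : N + 1 ≤ 3 * n := by omega
      exact_mod_cast this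
    have htK : t ≤ |K| * s := by
      rw [hs, ← div_eq_mul_inv, le_div_iff₀ hsq, mul_comm]
      exact hK.trans (le_abs_self K)
    have hj4 : 1 / (4 * (j : ℝ) ^ 2) ≤ 1 / (4 * ε ^ 2) * s ^ r := by
      have h2 : 1 / (4 * (j : ℝ) ^ 2) ≤ 1 / (4 * (ε * n) ^ 2) := by
        apply one_div_le_one_div_of_le (by positivity)
        gcongr
      have h3 : 1 / (4 * (ε * n) ^ 2) = 1 / (4 * ε ^ 2) * s ^ 4 := by
        have : s ^ 4 = 1 / (n : ℝ) ^ 2 := by
          rw [eq_div_iff (by positivity)]
          calc s ^ 4 * (n : ℝ) ^ 2 = ((n : ℝ) * s ^ 2) ^ 2 := by ring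
            _ = 1 := by rw [hns]; norm_num
        rw [this]
        field_simp
      rw [h3] at h2
      refine h2.trans ?_
      have h4 : s ^ 4 ≤ s ^ r := pow_le_pow_of_le_one hs0.le hs1 (by omega)
      gcongr
    have h2 : (N + 1) * t * (1 / (4 * (j : ℝ) ^ 2) * A + C' * A * s ^ r * mu1) ≤
        (3 * n) * (|K| * s) * (1 / (4 * ε ^ 2) * s ^ r * A + C' * A * s ^ r * mu1) := by
      gcongr
    have h3 : (j : ℝ) * q t (N + 1) j ≤
        (ε * n) * (3 * |K| / ε * (1 / (4 * ε ^ 2) + C' * mu1) * A * s ^ (r + 1)) := by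
      refine (h1.trans h2).trans (le_of_eq ?_)
      field_simp
      ring
    have h4 : q t (N + 1) j ≤ 3 * |K| / ε * (1 / (4 * ε ^ 2) + C' * mu1) * A * s ^ (r + 1) := by
      by_contra hcon
      push Not at hcon
      have h5 : 0 ≤ 3 * |K| / ε * (1 / (4 * ε ^ 2) + C' * mu1) * A * s ^ (r + 1) := by positivity
      have h6 := q_nonneg ht (N + 1) j
      have h7 : (ε * n) * (3 * |K| / ε * (1 / (4 * ε ^ 2) + C' * mu1) * A * s ^ (r + 1)) <
          (j : ℝ) * q t (N + 1) j := by
        calc _ ≤ (j : ℝ) * (3 * |K| / ε * (1 / (4 * ε ^ 2) + C' * mu1) * A * s ^ (r + 1)) := by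
              gcongr
          _ < _ := by gcongr
      linarith
    refine h4.trans ?_
    have h5 : A ≤ (1 + t * y0) ^ (N + 1) := by
      rw [hA, pow_succ]
      exact le_mul_of_one_le_right hA0.le (by linarith)
    gcongr

end

end Pool.Agent.Q296.Md
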