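import Pool.Agent.Q296.Md.Lim

set_option autoImplicit false

namespace Pool.Agent.Q296.Md

open Finset Filter Topology Pool.Agent.Q294.Md

noncomputable section

/-- `n (g(n-j)/g(n) - 1)` -/
def D (n j : ℕ) : ℝ := n * (g (n - j) / g n - 1)

lemma D_nonneg (n j : ℕ) : 0 ≤ D n j := by
  unfold D
  have h : 1 ≤ g (n - j) / g n := by
    rw [le_div_iff₀ (g_pos n), one_mul]
    exact g_anti (Nat.sub_le _ _)
  exact mul_nonneg (Nat.cast_nonneg _) (by linarith)

lemma D_le_all (n j : ℕ) : D n j ≤ n * (2 * ((n : ℝ) + 1) ^ 2 * g (n - j)) := by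
  unfold D
  have h := g_ratio_le_all n j
  gcongr
  linarith

lemma hh_diff (m j : ℕ) : hh m - hh (m + j) ≤ j / (4 * ((m : ℝ) + 1) ^ 2) := by
  induction j with
  | zero => simp
  | succ j ih =>
    have h1 := hh_succ (m + j)
    have h2 := hh_le (m + j)
    have h3 := hh_pos (m + j)
    have h4 : (1 : ℝ) / (4 * (((m + j : ℕ) : ℝ) + 1) ^ 2) ≤ 1 / (4 * ((m : ℝ) + 1) ^ 2) := by
      apply one_div_le_one_div_of_le (by positivity)
      push_cast
      have : (0 : ℝ) ≤ j := Nat.cast_nonneg j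
      gcongr
      linarith
    have h5 : 0 ≤ (1 : ℝ) / (4 * (((m + j : ℕ) : ℝ) + 1) ^ 2) := by positivity
    rw [← add_assoc, h1]
    push_cast at *
    have h6 : ((j : ℝ) + 1) / (4 * ((m : ℝ) + 1) ^ 2) =
        j / (4 * ((m : ℝ) + 1) ^ 2) + 1 / (4 * ((m : ℝ) + 1) ^ 2) := by ring
    rw [h6]
    have h7 : hh (m + j) * (1 / (4 * ((m : ℝ) + j + 1) ^ 2)) ≤
        1 * (1 / (4 * ((m : ℝ) + j + 1) ^ 2)) := by gcongr
    linarith

/-- the ratio of the `hh` -/
lemma hh_ratio {n j : ℕ} (hn : 1 ≤ n) (hj : 2 * j ≤ n) :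
    0 ≤ hh (n - j) / hh n - 1 ∧ hh (n - j) / hh n - 1 ≤ 2 * j / (n : ℝ) ^ 2 := by
  have hp := hh_pos n
  have hn0 : (0 : ℝ) < n := by exact_mod_cast hn
  constructor
  · rw [sub_nonneg, le_div_iff₀ hp, one_mul]
    exact hh_anti (Nat.sub_le _ _)
  · have h1 := hh_diff (n - j) j
    rw [Nat.sub_add_cancel (by omega)] at h1
    have h2 : (j : ℝ) / (4 * (((n - j : ℕ) : ℝ) + 1) ^ 2) ≤ j / (n : ℝ) ^ 2 := by
      have h3 : (n : ℝ) ≤ 2 * (((n - j : ℕ) : ℝ) + 1) := by
        have : n ≤ 2 * ((n - j) + 1) := by omega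
        exact_mod_cast this
      have h4 : (n : ℝ) ^ 2 ≤ 4 * (((n - j : ℕ) : ℝ) + 1) ^ 2 := by nlinarith
      gcongr
    have h3 := hh_ge n
    have h4 : hh (n - j) / hh n - 1 = (hh (n - j) - hh n) / hh n := by
      field_simp
    rw [h4, div_le_iff₀ hp]
    have h5 : (0 : ℝ) ≤ j / (n : ℝ) ^ 2 := by positivity
    have h6 : 2 * (j : ℝ) / (n : ℝ) ^ 2 = 2 * (j / (n : ℝ) ^ 2) := by ring
    rw [h6]
    nlinarith

lemma D_eq {n j : ℕ} (hj : j ≤ n) : D n j = n * (hh (n - j) / hh n - 1) *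
      (((n : ℝ) + 1) / ((n : ℝ) - j + 1)) ^ 2 + n * ((((n : ℝ) + 1) / ((n : ℝ) - j + 1)) ^ 2 - 1) := by
  have h2 := hh_pos n
  have h3 : (0 : ℝ) < (n : ℝ) - j + 1 := by
    have : (j : ℝ) ≤ n := by exact_mod_cast hj
    linarith
  unfold D
  rw [g_eq, g_eq, Nat.cast_sub hj]
  field_simp
  ring

lemma D_le_small {n j : ℕ} (hj : 2 * j ≤ n) : D n j ≤ 14 * j := by
  rcases Nat.eq_zero_or_pos n with rfl | hn
  · have : j = 0 := by omega
    subst this
    simp [D]
  have hn0 : (0 : ℝ) < n := by exact_mod_cast hn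
  have hn1 : (1 : ℝ) ≤ n := by exact_mod_cast hn
  have hj0 : (0 : ℝ) ≤ j := Nat.cast_nonneg j
  have hjn : (2 : ℝ) * j ≤ n := by exact_mod_cast hj
  have h3 : (0 : ℝ) < (n : ℝ) - j + 1 := by linarith
  rw [D_eq (by omega)]
  obtain ⟨h4, h5⟩ := hh_ratio hn hj
  have h6 : ((n : ℝ) + 1) / ((n : ℝ) - j + 1) = 1 + j / ((n : ℝ) - j + 1) := by
    field_simp
    ring
  have h7 : (j : ℝ) / ((n : ℝ) - j + 1) ≤ 2 * j / n := by
    rw [div_le_div_iff₀ h3 hn0]
    nlinarith
  have h8 : 2 * (j : ℝ) / n ≤ 1 := by rwa [div_le_one hn0]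
  have h9 : 0 ≤ (j : ℝ) / ((n : ℝ) - j + 1) := by positivity
  rw [h6]
  set u : ℝ := (j : ℝ) / ((n : ℝ) - j + 1) with hu
  have h10 : (1 + u) ^ 2 - 1 ≤ 3 * (2 * j / n) := by nlinarith
  have h11 : (1 + u) ^ 2 ≤ 4 := by nlinarith
  have h12 : (n : ℝ) * ((1 + u) ^ 2 - 1) ≤ n * (3 * (2 * j / n)) := by gcongr
  have h13 : (n : ℝ) * (3 * (2 * j / n)) = 6 * j := by field_simp; ring
  have h14 : (n : ℝ) * (hh (n - j) / hh n - 1) * (1 + u) ^ 2 ≤ n * (2 * j / (n : ℝ) ^ 2) * 4 := by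
    gcongr
  have h15 : (n : ℝ) * (2 * j / (n : ℝ) ^ 2) * 4 ≤ 8 * j := by
    have : (n : ℝ) * (2 * j / (n : ℝ) ^ 2) * 4 = 8 * j / n := by field_simp; ring
    rw [this, div_le_iff₀ hn0]
    nlinarith
  linarith

lemma D_lim (j : ℕ) : Tendsto (fun n => D n j) atTop (𝓝 (2 * j)) := by
  have h0 : Tendsto (fun n : ℕ => (n : ℝ)) atTop atTop := tendsto_natCast_atTop_atTop
  have hinv : Tendsto (fun n : ℕ => (n : ℝ)⁻¹) atTop (𝓝 0) := tendsto_inv_atTop_zero.comp h0
  have hshift : Tendsto (fun n : ℕ => (n : ℝ) - j + 1) atTop atTop :=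
    tendsto_atTop_add_const_right _ _ (tendsto_atTop_add_const_right _ _ h0)
  have h1 : Tendsto (fun n : ℕ => (j : ℝ) / ((n : ℝ) - j + 1)) atTop (𝓝 0) :=
    tendsto_const_nhds.div_atTop hshift
  have h2 : Tendsto (fun n : ℕ => (n : ℝ) / ((n : ℝ) - j + 1)) atTop (𝓝 1) := by
    have h3 : Tendsto (fun n : ℕ => 1 + ((j : ℝ) - 1) / ((n : ℝ) - j + 1)) atTop (𝓝 (1 + 0)) :=
      tendsto_const_nhds.add (tendsto_const_nhds.div_atTop hshift)
    rw [add_zero] at h3
    refine h3.congr' ?_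
    filter_upwards [eventually_ge_atTop j] with n hn
    have : (j : ℝ) ≤ n := by exact_mod_cast hn
    have h4 : (0 : ℝ) < (n : ℝ) - j + 1 := by linarith
    field_simp
    ring
  have h3 : Tendsto (fun n : ℕ => (n : ℝ) * (hh (n - j) / hh n - 1)) atTop (𝓝 0) := by
    have h4 : Tendsto (fun n : ℕ => 2 * (j : ℝ) * (n : ℝ)⁻¹) atTop (𝓝 0) := by
      have := hinv.const_mul (2 * (j : ℝ))
      simpa using this
    refine squeeze_zero' ?_ ?_ h4
    · filter_upwards [eventually_ge_atTop (2 * j + 1)] with n hn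
      exact mul_nonneg (Nat.cast_nonneg _) (hh_ratio (by omega) (by omega)).1
    · filter_upwards [eventually_ge_atTop (2 * j + 1)] with n hn
      have hn0 : (0 : ℝ) < n := by
        have : 0 < n := by omega
        exact_mod_cast this
      have h5 := (hh_ratio (n := n) (j := j) (by omega) (by omega)).2
      calc (n : ℝ) * (hh (n - j) / hh n - 1) ≤ n * (2 * j / (n : ℝ) ^ 2) := by gcongr
        _ = 2 * (j : ℝ) * (n : ℝ)⁻¹ := by field_simp
  have h4 : Tendsto (fun n : ℕ => (n : ℝ) * (hh (n - j) / hh n - 1) *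
      (1 + (j : ℝ) / ((n : ℝ) - j + 1)) ^ 2 +
      (j : ℝ) * ((n : ℝ) / ((n : ℝ) - j + 1)) * (2 + (j : ℝ) / ((n : ℝ) - j + 1))) atTop
      (𝓝 (0 * (1 + 0) ^ 2 + (j : ℝ) * 1 * (2 + 0))) := by
    exact (h3.mul ((h1.const_add 1).pow 2)).add ((h2.const_mul (j : ℝ)).mul (h1.const_add 2))
  have h5 : (0 * (1 + 0) ^ 2 + (j : ℝ) * 1 * (2 + 0)) = 2 * j := by ring
  rw [h5] at h4
  refine h4.congr' ?_
  filter_upwards [eventually_ge_atTop j] with n hn
  have h6 : (0 : ℝ) < (n : ℝ) - j + 1 := by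
    have : (j : ℝ) ≤ n := by exact_mod_cast hn
    linarith
  rw [D_eq hn]
  have h7 : ((n : ℝ) + 1) / ((n : ℝ) - j + 1) = 1 + j / ((n : ℝ) - j + 1) := by
    field_simp
    ring
  rw [h7]
  congr 1
  field_simp
  ring

/-- the transform of a sequence -/
def TT (x : ℕ → ℝ) (n : ℕ) : ℝ := ∑ j ∈ range (n + 1), g (n - j) / g n * x j

lemma TT_decomp {x : ℕ → ℝ} (hx : Summable x) (n : ℕ) :
    n * (TT x n - ∑' j, x j) = (∑' j, if 2 * j ≤ n then D n j * x j else 0) +
      (∑ j ∈ range (n + 1), if 2 * j ≤ n then 0 else D n j * x j) -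
      n * ∑' j, x (j + (n + 1)) := by
  have h1 := hx.sum_add_tsum_nat_add (n + 1)
  have h2 : (∑' j, if 2 * j ≤ n then D n j * x j else 0) =
      ∑ j ∈ range (n + 1), if 2 * j ≤ n then D n j * x j else 0 := by
    apply tsum_eq_sum
    intro j hj
    rw [mem_range, not_lt] at hj
    exact if_neg (by omega)
  have h3 : (∑ j ∈ range (n + 1), if 2 * j ≤ n then D n j * x j else 0) +
      (∑ j ∈ range (n + 1), if 2 * j ≤ n then 0 else D n j * x j) =
      n * TT x n - n * ∑ j ∈ range (n + 1), x j := by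
    unfold TT
    rw [← Finset.sum_add_distrib, Finset.mul_sum, Finset.mul_sum, ← Finset.sum_sub_distrib]
    apply Finset.sum_congr rfl
    intro j _
    unfold D
    split_ifs <;> ring
  rw [h2, h3, ← h1]
  ring

lemma summ3 : Summable fun j : ℕ => 1 / ((j : ℝ) + 1) ^ 3 := by
  have := (summable_nat_add_iff 1).2 (Real.summable_one_div_nat_pow.2 (show 1 < 3 by norm_num))
  simpa using this

lemma summ2 : Summable fun j : ℕ => 1 / ((j : ℝ) + 1) ^ 2 := by
  have := (summable_nat_add_iff 1).2 (Real.summable_one_div_nat_pow.2 (show 1 < 2 by norm_num))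
  simpa using this

lemma part2 {x : ℕ → ℝ} {η : ℝ} (hη : 0 ≤ η) (n : ℕ)
    (hx : ∀ j, n < 2 * j → |x j| ≤ η / ((j : ℝ) + 1) ^ 3) :
    |∑ j ∈ range (n + 1), if 2 * j ≤ n then 0 else D n j * x j| ≤ 16 * (∑' i, g i) * η := by
  refine (Finset.abs_sum_le_sum_abs _ _).trans ?_
  have hn0 : (0 : ℝ) ≤ n := Nat.cast_nonneg n
  have h1 : ∀ j ∈ range (n + 1), |if 2 * j ≤ n then 0 else D n j * x j| ≤
      16 * η * g (n - j) := by
    intro j hj
    have hg := g_pos (n - j)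
    split_ifs with h
    · rw [abs_zero]; positivity
    · rw [abs_mul, abs_of_nonneg (D_nonneg n j)]
      have h2 := hx j (by omega)
      have h3 := D_le_all n j
      have h4 : ((n : ℝ) + 1) ≤ 2 * ((j : ℝ) + 1) := by
        have : n + 1 ≤ 2 * (j + 1) := by omega
        exact_mod_cast this
      have h5 : η / ((j : ℝ) + 1) ^ 3 ≤ η / (((n : ℝ) + 1) / 2) ^ 3 := by
        gcongr
        linarith
      calc D n j * |x j| ≤ (n * (2 * ((n : ℝ) + 1) ^ 2 * g (n - j))) *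
            (η / (((n : ℝ) + 1) / 2) ^ 3) := by
            have := h2.trans h5
            gcongr
        _ = 16 * η * g (n - j) * (n / (n + 1)) := by
            field_simp
            ring
        _ ≤ 16 * η * g (n - j) * 1 := by
            have : (n : ℝ) / (n + 1) ≤ 1 := by
              rw [div_le_one (by positivity)]
              linarith
            gcongr
        _ = _ := mul_one _
  refine (Finset.sum_le_sum h1).trans ?_
  rw [← Finset.mul_sum, Finset.sum_flip g]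
  have h2 : ∑ i ∈ range (n + 1), g i ≤ ∑' i, g i :=
    g_summable.sum_le_tsum _ fun i _ => (g_pos i).le
  calc 16 * η * ∑ i ∈ range (n + 1), g i ≤ 16 * η * ∑' i, g i := by gcongr
    _ = _ := by ring

lemma part3 {x : ℕ → ℝ} {η : ℝ} (hη : 0 ≤ η) (n : ℕ)
    (hx : ∀ j, n < 2 * j → |x j| ≤ η / ((j : ℝ) + 1) ^ 3) :
    |(n : ℝ) * ∑' j, x (j + (n + 1))| ≤ (∑' j : ℕ, 1 / ((j : ℝ) + 1) ^ 2) * η := by
  rw [← tsum_mul_left]
  have h1 : ∀ j : ℕ, |(n : ℝ) * x (j + (n + 1))| ≤ 1 / ((j : ℝ) + 1) ^ 2 * η := by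
    intro j
    rw [abs_mul, abs_of_nonneg (Nat.cast_nonneg n)]
    have h2 := hx (j + (n + 1)) (by omega)
    push_cast at h2
    have hn0 : (0 : ℝ) ≤ n := Nat.cast_nonneg n
    have hj0 : (0 : ℝ) ≤ j := Nat.cast_nonneg j
    calc (n : ℝ) * |x (j + (n + 1))| ≤ n * (η / ((j : ℝ) + (n + 1) + 1) ^ 3) := by gcongr
      _ = η * (n / ((j : ℝ) + (n + 1) + 1)) / ((j : ℝ) + (n + 1) + 1) ^ 2 := by
          field_simp
      _ ≤ η * 1 / ((j : ℝ) + 1) ^ 2 := by
          have h3 : (n : ℝ) / ((j : ℝ) + (n + 1) + 1) ≤ 1 := by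
            rw [div_le_one (by positivity)]
            linarith
          gcongr
          linarith
      _ = _ := by ring
  have hs : Summable fun j : ℕ => 1 / ((j : ℝ) + 1) ^ 2 * η := summ2.mul_right η
  have h2 : Summable fun j : ℕ => |(n : ℝ) * x (j + (n + 1))| :=
    Summable.of_nonneg_of_le (fun j => abs_nonneg _) h1 hs
  have h3 : |∑' j, (n : ℝ) * x (j + (n + 1))| ≤ ∑' j, |(n : ℝ) * x (j + (n + 1))| := by
    have h2' : Summable fun j : ℕ => ‖(n : ℝ) * x (j + (n + 1))‖ := h2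
    have := norm_tsum_le_tsum_norm h2'
    exact this
  refine h3.trans ?_
  rw [← tsum_mul_right]
  exact h2.tsum_le_tsum h1 hs

lemma part1_bound {x : ℕ → ℝ} {C : ℝ} (hx : ∀ j, |x j| ≤ C / ((j : ℝ) + 1) ^ 3) (n j : ℕ) :
    |if 2 * j ≤ n then D n j * x j else 0| ≤ 14 * C * (1 / ((j : ℝ) + 1) ^ 2) := by
  have hC : 0 ≤ C := by
    have := (abs_nonneg _).trans (hx 0)
    simpa using this
  have hj0 : (0 : ℝ) ≤ j := Nat.cast_nonneg j
  split_ifs with h
  · rw [abs_mul, abs_of_nonneg (D_nonneg n j)]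
    calc D n j * |x j| ≤ 14 * j * (C / ((j : ℝ) + 1) ^ 3) := by
          have := D_le_small h
          have := hx j
          gcongr
      _ = 14 * C * (1 / ((j : ℝ) + 1) ^ 2) * (j / (j + 1)) := by
          field_simp
      _ ≤ 14 * C * (1 / ((j : ℝ) + 1) ^ 2) * 1 := by
          have : (j : ℝ) / (j + 1) ≤ 1 := by
            rw [div_le_one (by positivity)]
            linarith
          gcongr
      _ = _ := mul_one _
  · rw [abs_zero]; positivity

lemma summ_x {x : ℕ → ℝ} {C : ℝ} (hx : ∀ j, |x j| ≤ C / ((j : ℝ) + 1) ^ 3) : Summable x := by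
  have h1 : Summable fun j : ℕ => C / ((j : ℝ) + 1) ^ 3 := by
    have := summ3.mul_left C
    refine this.congr fun j => ?_
    ring
  exact Summable.of_norm_bounded h1 hx

theorem claimM {x : ℕ → ℝ} {C : ℝ} (hx : ∀ j, |x j| ≤ C / ((j : ℝ) + 1) ^ 3) :
    ∃ C1 : ℝ, ∀ n : ℕ, |n * (TT x n - ∑' j, x j)| ≤ C1 := by
  have hC : 0 ≤ C := by
    have := (abs_nonneg _).trans (hx 0)
    simpa using this
  have hsx := summ_x hx
  refine ⟨∑' j : ℕ, 14 * C * (1 / ((j : ℝ) + 1) ^ 2) + 16 * (∑' i, g i) * C +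
    (∑' j : ℕ, 1 / ((j : ℝ) + 1) ^ 2) * C, fun n => ?_⟩
  rw [TT_decomp hsx]
  have h2 := part2 hC n fun j _ => hx j
  have h3 := part3 hC n fun j _ => hx j
  have hs : Summable fun j : ℕ => 14 * C * (1 / ((j : ℝ) + 1) ^ 2) := summ2.mul_left _
  have h1 : |∑' j, if 2 * j ≤ n then D n j * x j else 0| ≤
      ∑' j : ℕ, 14 * C * (1 / ((j : ℝ) + 1) ^ 2) := by
    have h4 : Summable fun j : ℕ => ‖if 2 * j ≤ n then D n j * x j else 0‖ :=
      Summable.of_nonneg_of_le (fun j => norm_nonneg _) (part1_bound hx n) hs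
    exact (norm_tsum_le_tsum_norm h4).trans (h4.tsum_le_tsum (part1_bound hx n) hs)
  have h4 := abs_sub ((∑' j, if 2 * j ≤ n then D n j * x j else 0) +
      (∑ j ∈ range (n + 1), if 2 * j ≤ n then 0 else D n j * x j))
      (n * ∑' j, x (j + (n + 1)))
  have h5 := abs_add_le (∑' j, if 2 * j ≤ n then D n j * x j else 0)
      (∑ j ∈ range (n + 1), if 2 * j ≤ n then 0 else D n j * x j)
  linarith

theorem claimV {x : ℕ → ℝ} (hx : Tendsto (fun j : ℕ => ((j : ℝ) + 1) ^ 3 * x j) atTop (𝓝 0)) :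
    Tendsto (fun n : ℕ => n * (TT x n - ∑' j, x j)) atTop (𝓝 (∑' j : ℕ, 2 * j * x j)) := by
  obtain ⟨C, hC⟩ : ∃ C, ∀ j, |x j| ≤ C / ((j : ℝ) + 1) ^ 3 := by
    have h1 := (Metric.isBounded_range_of_tendsto _ hx).exists_norm_le
    obtain ⟨C, hC⟩ := h1
    refine ⟨C, fun j => ?_⟩
    have h2 := hC _ ⟨j, rfl⟩
    rw [norm_mul, Real.norm_of_nonneg (by positivity), Real.norm_eq_abs] at h2
    rw [le_div_iff₀ (by positivity), mul_comm]
    exact h2
  have hsx := summ_x hC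
  have hG0 : 0 ≤ ∑' i, g i := tsum_nonneg fun i => (g_pos i).le
  have hZ0 : 0 ≤ ∑' j : ℕ, 1 / ((j : ℝ) + 1) ^ 2 := tsum_nonneg fun i => by positivity
  -- eventual smallness
  have hsmall : ∀ η : ℝ, 0 < η → ∀ᶠ n : ℕ in atTop, ∀ j, n < 2 * j →
      |x j| ≤ η / ((j : ℝ) + 1) ^ 3 := by
    intro η hη
    have h1 := (Metric.tendsto_atTop.1 hx) η hη
    obtain ⟨M, hM⟩ := h1
    filter_upwards [eventually_ge_atTop (2 * M)] with n hn j hj
    have h2 := hM j (by omega)
    rw [Real.dist_eq, sub_zero, abs_mul, abs_of_nonneg (by positivity)] at h2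
    rw [le_div_iff₀ (by positivity), mul_comm]
    exact h2.le
  have hp2 : Tendsto (fun n : ℕ => ∑ j ∈ range (n + 1), if 2 * j ≤ n then 0 else D n j * x j)
      atTop (𝓝 0) := by
    rw [Metric.tendsto_atTop']
    intro ε hε
    have hη : 0 < ε / (16 * (∑' i, g i) + 1) := by positivity
    have h1 := hsmall _ hη
    obtain ⟨N, hN⟩ := h1.exists_forall_of_atTop
    refine ⟨N, fun n hn => ?_⟩
    have h2 := part2 hη.le n (hN n hn.le)
    rw [Real.dist_eq, sub_zero]
    refine h2.trans_lt ?_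
    rw [← mul_div_assoc, div_lt_iff₀ (by positivity)]
    nlinarith
  have hp3 : Tendsto (fun n : ℕ => (n : ℝ) * ∑' j, x (j + (n + 1))) atTop (𝓝 0) := by
    rw [Metric.tendsto_atTop']
    intro ε hε
    have hη : 0 < ε / ((∑' j : ℕ, 1 / ((j : ℝ) + 1) ^ 2) + 1) := by positivity
    have h1 := hsmall _ hη
    obtain ⟨N, hN⟩ := h1.exists_forall_of_atTop
    refine ⟨N, fun n hn => ?_⟩
    have h2 := part3 hη.le n (hN n hn.le)
    rw [Real.dist_eq, sub_zero]
    refine h2.trans_lt ?_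
    rw [← mul_div_assoc, div_lt_iff₀ (by positivity)]
    nlinarith
  have hp1 : Tendsto (fun n : ℕ => ∑' j, if 2 * j ≤ n then D n j * x j else 0) atTop
      (𝓝 (∑' j : ℕ, 2 * j * x j)) := by
    refine tendsto_tsum_of_dominated_convergence (bound := fun j : ℕ =>
      14 * C * (1 / ((j : ℝ) + 1) ^ 2)) (summ2.mul_left _) (fun j => ?_) ?_
    · have h1 := (D_lim j).mul_const (x j)
      refine h1.congr' ?_
      filter_upwards [eventually_ge_atTop (2 * j)] with n hn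
      rw [if_pos hn]
    · filter_upwards with n j
      exact part1_bound hC n j
  have h := (hp1.add hp2).sub hp3
  rw [add_zero, sub_zero] at h
  refine h.congr fun n => ?_
  exact (TT_decomp hsx n).symm

/-! ### application -/

lemma b_le3 (j : ℕ) : |b j| ≤ 1 / ((j : ℝ) + 1) ^ 3 := by
  rw [abs_of_nonneg (b_nonneg j)]
  rcases Nat.eq_zero_or_pos j with rfl | hj
  · rw [b_zero]; positivity
  · refine (b_le j).trans ?_
    have hj1 : (1 : ℝ) ≤ j := by exact_mod_cast hj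
    apply one_div_le_one_div_of_le (by positivity)
    have h1 : ((j : ℝ) + 1) ^ 3 ≤ (2 * j) ^ 3 := by
      gcongr
      linarith
    have h2 : (2 * (j : ℝ)) ^ 3 = 8 * (j : ℝ) ^ 3 := by ring
    have h3 : 0 < (j : ℝ) ^ 3 := by positivity
    linarith

theorem mean : S_mean := by
  obtain ⟨C, hC⟩ := claimM (x := b) (C := 1) b_le3
  exact ⟨C, hC⟩

/-- `(j+1)³ b_j` converges -/
lemma b_tendsto : ∃ ℓ : ℝ, Tendsto (fun j : ℕ => ((j : ℝ) + 1) ^ 3 * b j) atTop (𝓝 ℓ) := by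
  obtain ⟨c, _, hlim⟩ := hh_tendsto
  have h0 : Tendsto (fun n : ℕ => (n : ℝ)) atTop atTop := tendsto_natCast_atTop_atTop
  have hinv : Tendsto (fun n : ℕ => ((n : ℝ) + 1)⁻¹) atTop (𝓝 0) :=
    tendsto_inv_atTop_zero.comp (tendsto_atTop_add_const_right _ _ h0)
  -- along `j = n + 1`
  have h1 : Tendsto (fun n : ℕ => (((n + 1 : ℕ) : ℝ) + 1) ^ 3 * b (n + 1)) atTop
      (𝓝 ((1 + 0) ^ 3 * c / (16 * (2 - 0)))) := by
    have h2 : Tendsto (fun n : ℕ => (1 + ((n : ℝ) + 1)⁻¹) ^ 3 * hh n /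
        (16 * (2 - ((n : ℝ) + 1)⁻¹))) atTop (𝓝 ((1 + 0) ^ 3 * c / (16 * (2 - 0)))) := by
      refine ((((hinv.const_add 1).pow 3).mul hlim).div ((hinv.const_sub 2).const_mul 16) ?_)
      norm_num
    refine h2.congr fun n => ?_
    rw [b_succ, f_eq, g_eq]
    push_cast
    have hn : (0 : ℝ) ≤ n := Nat.cast_nonneg n
    have h3 : (2 : ℝ) - ((n : ℝ) + 1)⁻¹ = (2 * n + 1) / (n + 1) := by
      field_simp
      ring
    rw [h3]
    field_simp
  exact ⟨_, (tendsto_add_atTop_iff_nat (f := fun j : ℕ => ((j : ℝ) + 1) ^ 3 * b j) 1).1 h1⟩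

/-- weight of the pair -/
def ph (i k : ℕ) : ℝ := if i < k then 1 else if i = k then 1 / 2 else 0

lemma ph_add (i k : ℕ) : ph i k + ph k i = 1 := by
  unfold ph
  rcases lt_trichotomy i k with h | h | h
  · rw [if_pos h, if_neg (by omega), if_neg (by omega), add_zero]
  · subst h
    rw [if_neg (by omega), if_pos rfl]
    norm_num
  · rw [if_neg (by omega), if_neg (by omega), if_pos h, zero_add]

lemma ph_nonneg (i k : ℕ) : 0 ≤ ph i k := by
  unfold ph; split_ifs <;> norm_num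

lemma ph_le (i k : ℕ) : ph i k ≤ 1 := by
  unfold ph; split_ifs <;> norm_num

lemma b2_eq (j : ℕ) : b2 j = 2 * ∑ i ∈ range (j + 1), b i * b (j - i) * ph i (j - i) := by
  have h1 : b2 j = ∑ p ∈ Finset.HasAntidiagonal.antidiagonal j, b p.1 * b p.2 * ph p.1 p.2 +
      ∑ p ∈ Finset.HasAntidiagonal.antidiagonal j, b p.1 * b p.2 * ph p.2 p.1 := by
    unfold b2
    rw [← Finset.sum_add_distrib]
    apply Finset.sum_congr rfl
    intro p _
    rw [← mul_add, ph_add, mul_one]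
  have h2 : ∑ p ∈ Finset.HasAntidiagonal.antidiagonal j, b p.1 * b p.2 * ph p.2 p.1 =
      ∑ p ∈ Finset.HasAntidiagonal.antidiagonal j, b p.1 * b p.2 * ph p.1 p.2 := by
    rw [← Finset.Nat.sum_antidiagonal_swap]
    apply Finset.sum_congr rfl
    intro p _
    simp only [Prod.fst_swap, Prod.snd_swap]
    ring
  rw [h1, h2, Finset.Nat.sum_antidiagonal_eq_sum_range_succ (fun i k => b i * b k * ph i k) j]
  ring

theorem b2_tendsto {ℓ : ℝ} (hℓ : Tendsto (fun j : ℕ => ((j : ℝ) + 1) ^ 3 * b j) atTop (𝓝 ℓ)) :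
    Tendsto (fun j : ℕ => ((j : ℝ) + 1) ^ 3 * b2 j) atTop (𝓝 (2 * y0 * ℓ)) := by
  have h1 : ∀ j : ℕ, ((j : ℝ) + 1) ^ 3 * b2 j = 2 * ∑' i, if i ≤ j then
      b i * (((j : ℝ) + 1) ^ 3 * b (j - i)) * ph i (j - i) else 0 := by
    intro j
    rw [b2_eq, tsum_eq_sum (s := range (j + 1))]
    · rw [Finset.mul_sum, Finset.mul_sum, Finset.mul_sum]
      apply Finset.sum_congr rfl
      intro i hi
      rw [mem_range] at hi
      rw [if_pos (by omega)]
      ring
    · intro i hi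
      rw [mem_range] at hi
      exact if_neg (by omega)
  have h2 : Tendsto (fun j : ℕ => ∑' i, if i ≤ j then
      b i * (((j : ℝ) + 1) ^ 3 * b (j - i)) * ph i (j - i) else 0) atTop
      (𝓝 (∑' i, b i * ℓ)) := by
    refine tendsto_tsum_of_dominated_convergence (bound := fun i : ℕ => b i * 8)
      (b_summable.mul_right 8) (fun i => ?_) ?_
    · -- fixed `i`
      have h3 : Tendsto (fun j : ℕ => ((((j - i : ℕ) : ℝ) + 1) ^ 3 * b (j - i)) *
          (1 + (i : ℝ) / (((j - i : ℕ) : ℝ) + 1)) ^ 3) atTop (𝓝 (ℓ * (1 + 0) ^ 3)) := by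
        have h4 : Tendsto (fun j : ℕ => j - i) atTop atTop := tendsto_sub_atTop_nat i
        have h5 : Tendsto (fun m : ℕ => ((m : ℝ) + 1) ^ 3 * b m *
            (1 + (i : ℝ) / ((m : ℝ) + 1)) ^ 3) atTop (𝓝 (ℓ * (1 + 0) ^ 3)) := by
          have h0 : Tendsto (fun n : ℕ => (n : ℝ)) atTop atTop := tendsto_natCast_atTop_atTop
          have h6 : Tendsto (fun m : ℕ => (i : ℝ) / ((m : ℝ) + 1)) atTop (𝓝 0) :=
            tendsto_const_nhds.div_atTop (tendsto_atTop_add_const_right _ _ h0)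
          exact hℓ.mul ((h6.const_add 1).pow 3)
        exact h5.comp h4
      rw [add_zero, one_pow, mul_one] at h3
      refine (h3.const_mul (b i)).congr' ?_
      filter_upwards [eventually_gt_atTop (2 * i)] with j hj
      rw [if_pos (by omega)]
      have h4 : ph i (j - i) = 1 := by
        unfold ph
        rw [if_pos (by omega)]
      rw [h4, mul_one]
      congr 1
      have h5 : ((j - i : ℕ) : ℝ) = (j : ℝ) - i := Nat.cast_sub (by omega)
      have h6 : (0 : ℝ) < (j : ℝ) - i + 1 := by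
        rw [← h5]; positivity
      rw [h5]
      have h7 : 1 + (i : ℝ) / ((j : ℝ) - i + 1) = (j + 1) / ((j : ℝ) - i + 1) := by
        field_simp
        ring
      rw [h7]
      field_simp
    · filter_upwards with j i
      have hb := b_nonneg i
      split_ifs with h
      · rw [Real.norm_of_nonneg (mul_nonneg (mul_nonneg hb (mul_nonneg (by positivity)
          (b_nonneg _))) (ph_nonneg _ _))]
        rcases le_or_gt (2 * i) j with h3 | h3
        · have h4 : ((j : ℝ) + 1) ^ 3 * b (j - i) ≤ 8 := by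
            have h5 := b_le3 (j - i)
            rw [abs_of_nonneg (b_nonneg _)] at h5
            have h6 : (j : ℝ) + 1 ≤ 2 * (((j - i : ℕ) : ℝ) + 1) := by
              have : j + 1 ≤ 2 * ((j - i) + 1) := by omega
              exact_mod_cast this
            calc ((j : ℝ) + 1) ^ 3 * b (j - i) ≤ (2 * (((j - i : ℕ) : ℝ) + 1)) ^ 3 *
                  (1 / (((j - i : ℕ) : ℝ) + 1) ^ 3) := by
                  have := b_nonneg (j - i)
                  gcongr
              _ = 8 := by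
                  field_simp
                  norm_num
          have h5 := ph_le i (j - i)
          have h6 := ph_nonneg i (j - i)
          have h7 := b_nonneg (j - i)
          calc b i * (((j : ℝ) + 1) ^ 3 * b (j - i)) * ph i (j - i) ≤ b i * 8 * 1 := by gcongr
            _ = b i * 8 := mul_one _
        · have h4 : ph i (j - i) = 0 := by
            unfold ph
            rw [if_neg (by omega), if_neg (by omega)]
          rw [h4, mul_zero]
          positivity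
      · rw [norm_zero]
        positivity
  have h3 := h2.const_mul 2
  rw [tsum_mul_right, show (∑' i, b i) = y0 from rfl] at h3
  rw [show 2 * (y0 * ℓ) = 2 * y0 * ℓ by ring] at h3
  exact h3.congr fun j => (h1 j).symm

lemma hasSum_b2 : HasSum b2 (y0 * y0) := by
  have h := cauchy_aux b_nonneg b_nonneg b_summable.hasSum b_summable.hasSum
  exact h

lemma mul_b2_eq (j : ℕ) : (j : ℝ) * b2 j =
    ∑ p ∈ Finset.HasAntidiagonal.antidiagonal j, ((p.1 : ℝ) * b p.1) * b p.2 +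
      ∑ p ∈ Finset.HasAntidiagonal.antidiagonal j, ((p.1 : ℝ) * b p.1) * b p.2 := by
  have h2 : ∑ p ∈ Finset.HasAntidiagonal.antidiagonal j, ((p.2 : ℝ) * b p.1) * b p.2 =
      ∑ p ∈ Finset.HasAntidiagonal.antidiagonal j, ((p.1 : ℝ) * b p.1) * b p.2 := by
    rw [← Finset.Nat.sum_antidiagonal_swap]
    apply Finset.sum_congr rfl
    intro p _
    simp only [Prod.fst_swap, Prod.snd_swap]
    ring
  have h3 : (j : ℝ) * b2 j =
      ∑ p ∈ Finset.HasAntidiagonal.antidiagonal j, ((p.1 : ℝ) * b p.1) * b p.2 +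
      ∑ p ∈ Finset.HasAntidiagonal.antidiagonal j, ((p.2 : ℝ) * b p.1) * b p.2 := ?_
  · rw [h3, h2]
  rw [← Finset.sum_add_distrib]
  unfold b2
  rw [Finset.mul_sum]
  apply Finset.sum_congr rfl
  intro p hp
  rw [Finset.HasAntidiagonal.mem_antidiagonal] at hp
  have : (j : ℝ) = p.1 + p.2 := by rw [← hp]; push_cast; ring
  rw [this]
  ring

lemma hasSum_mul_b2 : HasSum (fun j : ℕ => (j : ℝ) * b2 j) (mu1 * y0 + mu1 * y0) := by
  have h0 : ∀ j : ℕ, 0 ≤ (j : ℝ) * b j := fun j => mul_nonneg (Nat.cast_nonneg _) (b_nonneg _)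
  have h1 := cauchy_aux h0 b_nonneg mul_b_summable.hasSum b_summable.hasSum
  have h2 := h1.add h1
  rw [funext mul_b2_eq]
  exact h2

theorem var : S_var := by
  obtain ⟨ℓ, hℓ⟩ := b_tendsto
  have h2 := b2_tendsto hℓ
  set x : ℕ → ℝ := fun j => b2 j - 2 * y0 * b j with hx
  have hlim : Tendsto (fun j : ℕ => ((j : ℝ) + 1) ^ 3 * x j) atTop (𝓝 0) := by
    have h3 := h2.sub (hℓ.const_mul (2 * y0))
    rw [sub_self] at h3
    refine h3.congr fun j => ?_
    simp only [hx]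
    ring
  have hV := claimV hlim
  have hsum : HasSum x (y0 * y0 - 2 * y0 * y0) :=
    hasSum_b2.sub (b_summable.hasSum.mul_left (2 * y0))
  have hsum2 : HasSum (fun j : ℕ => 2 * (j : ℝ) * x j)
      (2 * (mu1 * y0 + mu1 * y0) - 4 * y0 * mu1) := by
    have h3 := (hasSum_mul_b2.mul_left 2).sub (mul_b_summable.hasSum.mul_left (4 * y0))
    have e : (fun j : ℕ => 2 * (j : ℝ) * x j) =
        fun j : ℕ => 2 * ((j : ℝ) * b2 j) - 4 * y0 * ((j : ℝ) * b j) := by
      funext j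
      simp only [hx]
      ring
    rw [e]
    exact h3
  rw [hsum2.tsum_eq, hsum.tsum_eq] at hV
  rw [show 2 * (mu1 * y0 + mu1 * y0) - 4 * y0 * mu1 = 0 by ring] at hV
  obtain ⟨C, hC⟩ := mean
  have hC0 : 0 ≤ C := (abs_nonneg _).trans (hC 0)
  have h0 : Tendsto (fun n : ℕ => (n : ℝ)) atTop atTop := tendsto_natCast_atTop_atTop
  have hsq : Tendsto (fun n : ℕ => (n : ℝ) * (al n - y0) ^ 2) atTop (𝓝 0) := by
    have h3 : Tendsto (fun n : ℕ => C ^ 2 / (n : ℝ)) atTop (𝓝 0) :=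
      tendsto_const_nhds.div_atTop h0
    refine squeeze_zero' ?_ ?_ h3
    · filter_upwards with n
      positivity
    · filter_upwards [eventually_gt_atTop 0] with n hn
      have hn0 : (0 : ℝ) < n := by exact_mod_cast hn
      rw [le_div_iff₀ hn0]
      have h4 := hC n
      have h5 : (n : ℝ) * (al n - y0) ^ 2 * n = |n * (al n - y0)| ^ 2 := by
        rw [sq_abs]; ring
      rw [h5]
      gcongr
  have h3 := hV.sub hsq
  rw [sub_zero] at h3
  refine h3.congr fun n => ?_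
  have h4 : TT x n = be n - 2 * y0 * al n := by
    unfold TT be al
    rw [Finset.mul_sum, ← Finset.sum_sub_distrib]
    apply Finset.sum_congr rfl
    intro j _
    simp only [hx]
    ring
  rw [h4]
  ring

end

end Pool.Agent.Q296.Md
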